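import Pool.Agent.LatKK.Blocks
import Pool.Agent.LatKK.Lattice
import Pool.Agent.LatKK.Params

/-!
Parallelogram lattices in the fair (k:k) Maker-Breaker game on the `N × N` board.
-/

set_option autoImplicit false
set_option linter.unusedVariables false

namespace Pool.Agent.Results.MP_6045b2_co.FairLattice

open Finset

/-- The `N × N` board. -/
noncomputable def board (N : ℕ) : Finset (ℤ × ℤ) := Icc (1 : ℤ) N ×ˢ Icc (1 : ℤ) N

/-- A move is the set of the points claimed in it. A play `h` is the list of its moves; the moves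
number `0, 2, 4, ...` are made by Maker and the moves number `1, 3, 5, ...` by Breaker.
`unclaimed N h` is the set of the points of the board not claimed in `h`. -/
noncomputable def unclaimed (N : ℕ) (h : List (Finset (ℤ × ℤ))) : Finset (ℤ × ℤ) :=
  (board N).filter (fun x => ∀ m ∈ h, x ∉ m)

/-- A legal move after `h` consists of `k` unclaimed points or, if fewer than `k` points are
unclaimed, of all of them (at least one). -/
def IsLegalMove (k N : ℕ) (h : List (Finset (ℤ × ℤ))) (m : Finset (ℤ × ℤ)) : Prop :=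
  m ⊆ unclaimed N h ∧ m.card = min k (unclaimed N h).card ∧ m.Nonempty

/-- All moves of `h` are legal. -/
def IsPlay (k N : ℕ) (h : List (Finset (ℤ × ℤ))) : Prop :=
  ∀ (i : ℕ) (hi : i < h.length), IsLegalMove k N (h.take i) (h[i]'hi)

/-- The player making the moves with number congruent to `p` modulo 2 follows `σ`: each of these
moves is the value of `σ` at the list of the earlier moves. -/
def Follows (p : ℕ) (σ : List (Finset (ℤ × ℤ)) → Finset (ℤ × ℤ))
    (h : List (Finset (ℤ × ℤ))) : Prop :=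
  ∀ (i : ℕ) (hi : i < h.length), i % 2 = p → h[i]'hi = σ (h.take i)

/-- `σ` is a strategy of this player (`p = 0`: Maker, `p = 1`: Breaker): it gives a legal move in
every position in which the player is to move and which can arise when he follows it. -/
def IsStrategy (k N p : ℕ) (σ : List (Finset (ℤ × ℤ)) → Finset (ℤ × ℤ)) : Prop :=
  ∀ h : List (Finset (ℤ × ℤ)), IsPlay k N h → Follows p σ h → h.length % 2 = p →
    (unclaimed N h).Nonempty → IsLegalMove k N h (σ h)

/-- The point `x` was claimed by Maker in the play `h`. -/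
def MakerOwns (h : List (Finset (ℤ × ℤ))) (x : ℤ × ℤ) : Prop :=
  ∃ (i : ℕ) (hi : i < h.length), i % 2 = 0 ∧ x ∈ h[i]'hi

/-- Maker owns all points of some `q × q` parallelogram lattice. -/
def OwnsLattice (h : List (Finset (ℤ × ℤ))) (q : ℕ) : Prop :=
  ∃ a u v : ℤ × ℤ, LinearIndependent ℤ ![u, v] ∧
    ∀ i j : ℕ, i < q → j < q → MakerOwns h (a + (i : ℤ) • u + (j : ℤ) • v)

/-- In the `(k:k)` game on the `N × N` board Maker (who moves first) has a strategy with which, at the
end of every play, he owns all points of some `q × q` parallelogram lattice. -/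
def MakerCanBuild (k N q : ℕ) : Prop :=
  ∃ σ : List (Finset (ℤ × ℤ)) → Finset (ℤ × ℤ), IsStrategy k N 0 σ ∧
    ∀ h : List (Finset (ℤ × ℤ)), IsPlay k N h → Follows 0 σ h → unclaimed N h = ∅ →
      OwnsLattice h q

/-- In the `(k:k)` game on the `N × N` board Breaker has a strategy with which, at the end of every
play, Maker does not own a `q × q` parallelogram lattice with `q ≥ r`. -/
def BreakerCanPrevent (k N : ℕ) (r : ℝ) : Prop :=
  ∃ τ : List (Finset (ℤ × ℤ)) → Finset (ℤ × ℤ), IsStrategy k N 1 τ ∧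
    ∀ h : List (Finset (ℤ × ℤ)), IsPlay k N h → Follows 1 τ h → unclaimed N h = ∅ →
      ∀ q : ℕ, r ≤ q → ¬ OwnsLattice h q

lemma unclaimed_eq {N : ℕ} (h : List (Finset (ℤ × ℤ))) :
    unclaimed N h = LatKK.free (board N) h := rfl

lemma isLegalMove_iff {k N : ℕ} (h : List (Finset (ℤ × ℤ))) (m : Finset (ℤ × ℤ)) :
    IsLegalMove k N h m ↔ LatKK.IsMove (board N) k h m := Iff.rfl

lemma isPlay_iff {k N : ℕ} (h : List (Finset (ℤ × ℤ))) :
    IsPlay k N h ↔ LatKK.Legal (board N) k h := Iff.rfl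

lemma own_mem {N : ℕ} (h : List (Finset (ℤ × ℤ))) {x : ℤ × ℤ}
    (hx : x ∈ LatKK.own (board N) 0 h) : MakerOwns h x := by
  unfold LatKK.own at hx
  rw [Finset.mem_filter] at hx
  exact hx.2

/-- Two strategies, one for each player, are followed together in some complete play. -/
lemma exists_complete_play {k N : ℕ} (σ τ : List (Finset (ℤ × ℤ)) → Finset (ℤ × ℤ))
    (hσ : IsStrategy k N 0 σ) (hτ : IsStrategy k N 1 τ) :
    ∃ h : List (Finset (ℤ × ℤ)), IsPlay k N h ∧ Follows 0 σ h ∧ Follows 1 τ h ∧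
      unclaimed N h = ∅ := by
  have key : ∀ (n : ℕ) (h : List (Finset (ℤ × ℤ))), (unclaimed N h).card = n → IsPlay k N h →
      Follows 0 σ h → Follows 1 τ h → ∃ h : List (Finset (ℤ × ℤ)), IsPlay k N h ∧
        Follows 0 σ h ∧ Follows 1 τ h ∧ unclaimed N h = ∅ := by
    intro n
    induction n using Nat.strong_induction_on with
    | _ n ih =>
      intro h hn hp hf hg
      by_cases hne : (unclaimed N h).Nonempty
      · obtain ⟨m, hm, hm0, hm1⟩ : ∃ m, IsLegalMove k N h m ∧ (h.length % 2 = 0 → m = σ h) ∧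
            (h.length % 2 = 1 → m = τ h) := by
          by_cases hl : h.length % 2 = 0
          · exact ⟨σ h, hσ h hp hf hl hne, fun _ => rfl, fun e => by omega⟩
          · have hl1 : h.length % 2 = 1 := by omega
            exact ⟨τ h, hτ h hp hg hl1 hne, fun e => by omega, fun _ => rfl⟩
        have hsub : unclaimed N (h ++ [m]) ⊂ unclaimed N h := by
          rw [Finset.ssubset_iff_of_subset]
          · obtain ⟨e, he⟩ := hm.2.2
            refine ⟨e, hm.1 he, ?_⟩
            unfold unclaimed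
            rw [Finset.mem_filter]
            rintro ⟨_, h3⟩
            exact h3 m (by simp) he
          · intro e he
            unfold unclaimed at he ⊢
            rw [Finset.mem_filter] at he ⊢
            exact ⟨he.1, fun m' hm' => he.2 m' (by simp [hm'])⟩
        refine ih _ (hn ▸ Finset.card_lt_card hsub) (h ++ [m]) rfl ?_ ?_ ?_
        · intro i hi
          rw [List.length_append, List.length_singleton] at hi
          by_cases hil : i < h.length
          · rw [List.getElem_append_left hil, List.take_append_of_le_length hil.le]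
            exact hp i hil
          · have hil' : i = h.length := by omega
            subst hil'
            simpa using hm
        · intro i hi hi2
          rw [List.length_append, List.length_singleton] at hi
          by_cases hil : i < h.length
          · rw [List.getElem_append_left hil, List.take_append_of_le_length hil.le]
            exact hf i hil hi2
          · have hil' : i = h.length := by omega
            subst hil'
            simpa using hm0 hi2
        · intro i hi hi2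
          rw [List.length_append, List.length_singleton] at hi
          by_cases hil : i < h.length
          · rw [List.getElem_append_left hil, List.take_append_of_le_length hil.le]
            exact hg i hil hi2
          · have hil' : i = h.length := by omega
            subst hil'
            simpa using hm1 hi2
      · exact ⟨h, hp, hf, hg, Finset.not_nonempty_iff_eq_empty.1 hne⟩
  exact key _ [] rfl (by intro i hi; simp at hi) (by intro i hi; simp at hi)
    (by intro i hi; simp at hi)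

/-- the lower bound for all `k` -/
lemma maker_lower (k : ℕ) (c : ℝ) (hk : 2 ≤ k) (hc : 0 < c)
    (h : c ^ 2 * Real.logb 2 ((k : ℝ) + 1) < 2 * k) :
    ∃ N₀ : ℕ, ∀ N : ℕ, N₀ ≤ N → ∃ q : ℕ, c * Real.sqrt (Real.logb 2 N) ≤ q ∧
      MakerCanBuild k N q := by
  obtain ⟨N₀, hN₀⟩ := LatKK.params k hk c hc h
  refine ⟨N₀, fun N hN => ?_⟩
  obtain ⟨m, R, hm, hR, hcq, hle, hlt⟩ := hN₀ N hN
  refine ⟨k * m, hcq, ?_⟩
  have hk1 : 1 ≤ k := by omega
  set n := m * (k * m + k - 1) with hn
  have hn1 : 1 ≤ n := by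
    rw [hn]
    refine Nat.mul_pos hm ?_
    have : 1 ≤ k * m := Nat.mul_pos hk1 hm
    omega
  set U := LatKK.UU k m R with hU
  set F := LatKK.FF k m R with hF
  have hΔ : (0 : ℝ) < ((n : ℝ)) ^ 2 := by
    have : (0 : ℝ) < n := by exact_mod_cast hn1
    positivity
  have hbig : (U.card : ℝ) * ((k : ℝ) * ((k : ℝ) + 1) * (n : ℝ) ^ 2 / 2) <
      LatKK.LL F (LatKK.SS k m R) ((k : ℝ) + 1) ∅ ∅ := by
    have hr : (1 : ℝ) ≤ (k : ℝ) + 1 := by
      have : (0 : ℝ) ≤ k := Nat.cast_nonneg k
      linarith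
    have hr0 : (0 : ℝ) < (k : ℝ) + 1 := by linarith
    have hlow : (F.card : ℝ) * ((((k : ℝ) + 1)⁻¹) ^ n / 2) ≤
        LatKK.LL F (LatKK.SS k m R) ((k : ℝ) + 1) ∅ ∅ := by
      unfold LatKK.LL
      rw [← nsmul_eq_mul]
      refine Finset.card_nsmul_le_sum _ _ _ (fun p hp => ?_)
      rw [if_pos (Finset.disjoint_empty_right _), Finset.sdiff_empty]
      unfold LatKK.phi
      have h1 : (((k : ℝ) + 1)⁻¹) ^ n ≤ (((k : ℝ) + 1)⁻¹) ^ (LatKK.SS k m R p).card :=
        pow_le_pow_of_le_one (by positivity) (inv_le_one_of_one_le₀ hr)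
          (LatKK.card_SS_le k m R hk1 hm p)
      have h2 : 0 ≤ (((k : ℝ) + 1)⁻¹) ^ (2 * (LatKK.SS k m R p).card) := by positivity
      linarith
    refine lt_of_lt_of_le ?_ hlow
    rw [hU, hF, LatKK.card_UU, LatKK.card_FF]
    have hlt' : (16 * k * (k + 1) * m * n ^ 2 * (k + 1) ^ n : ℝ) < (R : ℝ) ^ 2 := by
      exact_mod_cast hlt
    have hkp : (0 : ℝ) < k := by exact_mod_cast hk1
    have hmp : (0 : ℝ) < m := by exact_mod_cast hm
    have hRp : (0 : ℝ) < R := by exact_mod_cast hR
    have hpow : (0 : ℝ) < ((k : ℝ) + 1) ^ n := by positivity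
    rw [inv_pow]
    push_cast
    have e1 : ((k : ℝ) * m * m * R) ^ 2 * (R : ℝ) ^ 2 * ((((k : ℝ) + 1) ^ n)⁻¹ / 2) =
        ((k : ℝ) * m * m * R) ^ 2 / (2 * ((k : ℝ) + 1) ^ n) * (R : ℝ) ^ 2 := by
      field_simp
    rw [e1]
    calc (m : ℝ) * (4 * ((k : ℝ) * m * m * R)) ^ 2 * ((k : ℝ) * ((k : ℝ) + 1) * (n : ℝ) ^ 2 / 2)
        = ((k : ℝ) * m * m * R) ^ 2 / (2 * ((k : ℝ) + 1) ^ n) *
          (16 * k * (k + 1) * m * n ^ 2 * (k + 1) ^ n) := by
          field_simp
          ring
      _ < _ := mul_lt_mul_of_pos_left hlt' (by positivity)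
  obtain ⟨σ, s1, s2⟩ := LatKK.block_win (board N) k hk1 U (LatKK.XX k m R)
    (LatKK.XX_subset k m R N hk1 hm hR hle) (LatKK.card_XX k m R hk1 hm hR)
    (LatKK.disj_XX k m R hk1 hm hR) F (LatKK.SS k m R) (LatKK.SS_subset k m R hk1 hm hR)
    ((n : ℝ) ^ 2) hΔ (fun x y hxy => by exact_mod_cast LatKK.codeg k m R hk1 hm x y hxy) hbig
  refine ⟨σ, ?_, ?_⟩
  · intro h hp hf hl hne
    exact s1 h hp hf hl hne
  · intro h hp hf hu
    obtain ⟨p, hpF, hown⟩ := s2 h hp hf hu
    refine ⟨p.1, (LatKK.Hh k m R - p.2.1, - p.2.2), (m * p.2.1, m * p.2.2),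
      LatKK.lattice_indep k m R hk1 hm hR p hpF, ?_⟩
    intro i j hi hj
    exact own_mem h (LatKK.lattice_mem k m R hk1 hm hR p _ hown i j hi hj)

lemma logb_seven : Real.logb 2 7 < 2.82 := by
  rw [Real.logb_lt_iff_lt_rpow (by norm_num) (by norm_num)]
  have h : (2:ℝ) ^ (2.82:ℝ) = ((2:ℝ) ^ (141:ℕ)) ^ ((1:ℝ)/50) := by
    rw [← Real.rpow_natCast, ← Real.rpow_mul (by norm_num)]; norm_num
  rw [h]
  have h7 : (7:ℝ) = ((7:ℝ) ^ (50:ℕ)) ^ ((1:ℝ)/50) := by
    rw [← Real.rpow_natCast, ← Real.rpow_mul (by norm_num)]; norm_num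
  rw [h7]
  apply Real.rpow_lt_rpow (by positivity) _ (by norm_num)
  norm_num

/-- (1) For `k ≥ 2` and `c < √(2k / log₂(k+1))`, for all large `N` Maker can build a `q × q`
parallelogram lattice with `q ≥ c √(log₂ N)` in the `(k:k)` game on the `N × N` board.
(2) The negated form of the question holds, with `k = 6`.
(3) The statement of the question is false. -/
theorem result :
    (∀ (k : ℕ) (c : ℝ), 2 ≤ k → 0 < c → c ^ 2 * Real.logb 2 ((k : ℝ) + 1) < 2 * k →
      ∃ N₀ : ℕ, ∀ N : ℕ, N₀ ≤ N → ∃ q : ℕ, c * Real.sqrt (Real.logb 2 N) ≤ q ∧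
        MakerCanBuild k N q) ∧
    (∃ c : ℝ, 2 < c ∧ ∃ N₀ : ℕ, ∀ N : ℕ, N₀ ≤ N → ∃ q : ℕ,
      c * Real.sqrt (Real.logb 2 N) ≤ q ∧ MakerCanBuild 6 N q) ∧
    ¬ (∀ (k : ℕ) (c : ℝ), 2 ≤ k → 2 < c → ∃ N₀ : ℕ, ∀ N : ℕ, N₀ ≤ N →
      BreakerCanPrevent k N (c * Real.sqrt (Real.logb 2 N))) := by
  have h1 := maker_lower
  have h2 : ∃ c : ℝ, 2 < c ∧ ∃ N₀ : ℕ, ∀ N : ℕ, N₀ ≤ N → ∃ q : ℕ,
      c * Real.sqrt (Real.logb 2 N) ≤ q ∧ MakerCanBuild 6 N q := by
    refine ⟨2.05, by norm_num, h1 6 2.05 (by norm_num) (by norm_num) ?_⟩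
    have h7 := logb_seven
    have e : ((6 : ℕ) : ℝ) + 1 = 7 := by norm_num
    rw [e]
    norm_num at h7 ⊢
    linarith
  refine ⟨h1, h2, fun hcon => ?_⟩
  obtain ⟨c, hc, N₀, hN₀⟩ := h2
  obtain ⟨N₁, hN₁⟩ := hcon 6 c (by norm_num) hc
  obtain ⟨q, hq, σ, hσ, hσ2⟩ := hN₀ (max N₀ N₁) (le_max_left _ _)
  obtain ⟨τ, hτ, hτ2⟩ := hN₁ (max N₀ N₁) (le_max_right _ _)
  obtain ⟨h, hp, hf, hg, hu⟩ := exists_complete_play σ τ hσ hτ
  exact hτ2 h hp hg hu q hq (hσ2 h hp hf hu)

end Pool.Agent.Results.MP_6045b2_co.FairLattice
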